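import Pool.Agent.H32.Dense.Defs

/-!
# Function form and almost independence: one value of exponentially large mass

`R` is a record, `e` a direction, `x` the exact point.  If `e` and `x` are nearly independent
given `R` (the deeper position does not reveal the direction), and a relation between a value of
`(R, e)` and a value of `x` holds with probability at least `c`, then for a suitable function `f`
of `R` alone the relation of `f (R)` and `x` holds with probability at least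
`exp (- (d + log 2) / c)`.  This is data processing for the information.
-/

set_option autoImplicit false

namespace Pool.GAP

open Finset Real
open Pool.Agent.H49.Ent Pool.Agent.H32.Dense

universe u

variable {Ω : Type*} [Fintype Ω] {S T U V : Type*}

open Classical in
/-- The mass of an event. -/
noncomputable def ms (p : Ω → ℝ) (A : Ω → Prop) : ℝ := ∑ ω, if A ω then p ω else 0

theorem ms_nonneg {p : Ω → ℝ} (hp : ∀ ω, 0 ≤ p ω) (A : Ω → Prop) : 0 ≤ ms p A := by
  classical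
  unfold ms
  exact Finset.sum_nonneg fun ω _ => by split_ifs; exacts [hp ω, le_rfl]

theorem ms_mono {p : Ω → ℝ} (hp : ∀ ω, 0 ≤ p ω) {A B : Ω → Prop}
    (h : ∀ ω, 0 < p ω → A ω → B ω) : ms p A ≤ ms p B := by
  classical
  unfold ms
  refine Finset.sum_le_sum fun ω _ => ?_
  rcases (hp ω).eq_or_lt with h0 | h0
  · rw [← h0]; simp
  · by_cases hA : A ω
    · rw [if_pos hA, if_pos (h ω h0 hA)]
    · rw [if_neg hA]
      split_ifs
      exacts [hp ω, le_rfl]

/-- Jensen's inequality for the logarithm. -/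
theorem Ex_log_le {p : Ω → ℝ} (hp : ∀ ω, 0 ≤ p ω) (h1 : ∑ ω, p ω = 1) {v : Ω → ℝ}
    (hv : ∀ ω, 0 < p ω → 0 < v ω) : Ex p (fun ω => Real.log (v ω)) ≤ Real.log (Ex p v) := by
  have hpos : 0 < Ex p v := by
    unfold Ex
    have hne : ∃ ω, 0 < p ω := by
      by_contra hc
      push Not at hc
      have : ∑ ω, p ω ≤ 0 := Finset.sum_nonpos fun ω _ => hc ω
      linarith
    obtain ⟨ω, hω⟩ := hne
    refine Finset.sum_pos' (fun ω _ => ?_) ⟨ω, Finset.mem_univ ω, mul_pos hω (hv ω hω)⟩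
    rcases (hp ω).eq_or_lt with h0 | h0
    · rw [← h0, zero_mul]
    · exact (mul_pos h0 (hv ω h0)).le
  have h2 : Ex p (fun ω => Real.log (v ω)) ≤
      Ex p (fun ω => Real.log (Ex p v) + (v ω / Ex p v - 1)) := by
    refine Ex_mono hp fun ω hω => ?_
    have h3 := Real.log_le_sub_one_of_pos (div_pos (hv ω hω) hpos)
    rw [Real.log_div (hv ω hω).ne' hpos.ne'] at h3
    linarith
  refine h2.trans (le_of_eq ?_)
  have h4 : Ex p (fun ω => Real.log (Ex p v) + (v ω / Ex p v - 1)) =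
      Real.log (Ex p v) * ∑ ω, p ω + ((∑ ω, p ω * v ω) / Ex p v - ∑ ω, p ω) := by
    unfold Ex
    rw [Finset.mul_sum, Finset.sum_div, ← Finset.sum_sub_distrib, ← Finset.sum_add_distrib]
    exact Finset.sum_congr rfl fun ω _ => by ring
  rw [h4, h1]
  have h5 : (∑ ω, p ω * v ω) / Ex p v = 1 := by
    have : (∑ ω, p ω * v ω) = Ex p v := rfl
    rw [this, div_self hpos.ne']
  rw [h5]
  ring

/-- The density of the product law with respect to the law. -/
noncomputable def wt (p : Ω → ℝ) (e : Ω → S) (x : Ω → T) (R : Ω → U) (ω : Ω) : ℝ :=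
  law p (fun ω => (e ω, R ω)) (e ω, R ω) * law p (fun ω => (x ω, R ω)) (x ω, R ω) /
    (law p (fun ω => (e ω, (x ω, R ω))) (e ω, (x ω, R ω)) * law p R (R ω))

theorem wt_pos {p : Ω → ℝ} (hp : ∀ ω, 0 ≤ p ω) (e : Ω → S) (x : Ω → T) (R : Ω → U) {ω : Ω}
    (hω : 0 < p ω) : 0 < wt p e x R ω :=
  div_pos (mul_pos (law_pos hp (fun ω => (e ω, R ω)) hω) (law_pos hp (fun ω => (x ω, R ω)) hω))
    (mul_pos (law_pos hp (fun ω => (e ω, (x ω, R ω))) hω) (law_pos hp R hω))

theorem Ex_log_wt {p : Ω → ℝ} (hp : ∀ ω, 0 ≤ p ω) (e : Ω → S) (x : Ω → T) (R : Ω → U) :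
    Ex p (fun ω => Real.log (wt p e x R ω)) =
      -(CH p e R - CH p e (fun ω => (x ω, R ω))) := by
  unfold CH H Ex
  rw [← Finset.sum_neg_distrib, ← Finset.sum_neg_distrib, ← Finset.sum_neg_distrib,
    ← Finset.sum_neg_distrib, ← Finset.sum_sub_distrib, ← Finset.sum_sub_distrib,
    ← Finset.sum_sub_distrib, ← Finset.sum_neg_distrib]
  refine Finset.sum_congr rfl fun ω _ => ?_
  rcases (hp ω).eq_or_lt with h0 | h0
  · rw [← h0]; ring
  · have a1 := law_pos hp (fun ω => (e ω, R ω)) h0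
    have a2 := law_pos hp (fun ω => (x ω, R ω)) h0
    have a3 := law_pos hp (fun ω => (e ω, (x ω, R ω))) h0
    have a4 := law_pos hp R h0
    unfold wt
    beta_reduce
    rw [Real.log_div (mul_pos a1 a2).ne' (mul_pos a3 a4).ne', Real.log_mul a1.ne' a2.ne',
      Real.log_mul a3.ne' a4.ne']
    ring

/-- The law of `(e, x, R)` under the coupling which makes `e` and `x` independent given `R`. -/
theorem law_glue (p : Ω → ℝ) (e : Ω → S) (x : Ω → T) (R : Ω → U) (a : S) (b : T) (r : U) :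
    law (glue p p R R) (fun v : Ω × Ω => (e v.1, (x v.2, R v.1))) (a, (b, r)) =
      law p (fun ω => (e ω, R ω)) (a, r) * law p (fun ω => (x ω, R ω)) (b, r) / law p R r := by
  classical
  have h : law p (fun ω => (e ω, R ω)) (a, r) * law p (fun ω => (x ω, R ω)) (b, r) =
      ∑ ω1, ∑ ω2, (if (e ω1, R ω1) = (a, r) then p ω1 else 0) *
        (if (x ω2, R ω2) = (b, r) then p ω2 else 0) := by
    unfold law
    rw [Finset.sum_mul_sum]
    refine Finset.sum_congr rfl fun ω1 _ => Finset.sum_congr rfl fun ω2 _ => ?_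
    congr
  rw [h, Finset.sum_div]
  unfold law
  rw [Fintype.sum_prod_type]
  refine Finset.sum_congr rfl fun ω1 _ => ?_
  rw [Finset.sum_div]
  refine Finset.sum_congr rfl fun ω2 _ => ?_
  unfold glue
  simp only [Prod.mk.injEq]
  by_cases h1 : e ω1 = a
  · by_cases h2 : R ω1 = r
    · by_cases h3 : x ω2 = b
      · by_cases h4 : R ω2 = r
        · simp only [h1, h2, h3, h4, and_self, if_true]
          rfl
        · have h5 : ¬ r = R ω2 := fun h => h4 h.symm
          simp [h1, h2, h3, h4, h5]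
      · simp [h1, h2, h3]
    · simp [h1, h2]
  · simp [h1]

/-- Sums weighted by `wt` are bounded by the product law. -/
theorem Ex_wt_le {p : Ω → ℝ} (hp : ∀ ω, 0 ≤ p ω) (e : Ω → S) (x : Ω → T) (R : Ω → U)
    (ψ : S × (T × U) → ℝ) (hψ : ∀ s, 0 ≤ ψ s) :
    Ex p (fun ω => wt p e x R ω * ψ (e ω, (x ω, R ω))) ≤
      Ex (glue p p R R) (fun v : Ω × Ω => ψ (e v.1, (x v.2, R v.1))) := by
  classical
  set X : Ω → S × (T × U) := fun ω => (e ω, (x ω, R ω)) with hX
  set Y : Ω × Ω → S × (T × U) := fun v => (e v.1, (x v.2, R v.1)) with hY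
  set g : S × (T × U) → ℝ := fun s =>
    law p (fun ω => (e ω, R ω)) (s.1, s.2.2) * law p (fun ω => (x ω, R ω)) s.2 /
      (law p X s * law p R s.2.2) * ψ s with hg
  have e1 : Ex p (fun ω => wt p e x R ω * ψ (e ω, (x ω, R ω))) = ∑ ω, p ω * g (X ω) := by
    unfold Ex
    refine Finset.sum_congr rfl fun ω _ => ?_
    rfl
  have e2 : Ex (glue p p R R) (fun v : Ω × Ω => ψ (e v.1, (x v.2, R v.1))) =
      ∑ v, glue p p R R v * ψ (Y v) := rfl
  rw [e1, e2, sum_mul_eq_sum_image p X g, sum_mul_eq_sum_image (glue p p R R) Y ψ]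
  have hgl : ∀ v, 0 ≤ glue p p R R v := fun v => glue_nonneg hp hp v
  have hsub : univ.image X ⊆ univ.image Y := by
    intro s hs
    rw [Finset.mem_image] at hs ⊢
    obtain ⟨ω, -, rfl⟩ := hs
    exact ⟨(ω, ω), Finset.mem_univ _, rfl⟩
  refine le_trans (Finset.sum_le_sum fun s _ => ?_)
    (Finset.sum_le_sum_of_subset_of_nonneg hsub fun s _ _ =>
      mul_nonneg (law_nonneg hgl Y s) (hψ s))
  have e3 : law (glue p p R R) Y s =
      law p (fun ω => (e ω, R ω)) (s.1, s.2.2) * law p (fun ω => (x ω, R ω)) (s.2.1, s.2.2) /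
        law p R s.2.2 := law_glue p e x R s.1 s.2.1 s.2.2
  rcases (law_nonneg hp X s).eq_or_lt with h0 | h0
  · rw [← h0, zero_mul]
    exact mul_nonneg (law_nonneg hgl Y s) (hψ s)
  · rw [e3]
    refine le_of_eq ?_
    rw [hg]
    simp only
    by_cases h5 : law p R s.2.2 = 0
    · rw [h5]; simp
    · field_simp

/-- The best value of the direction: the product law is bounded by a function of the record. -/
theorem prod_le {p : Ω → ℝ} (hp : ∀ ω, 0 ≤ p ω) (h1 : ∑ ω, p ω = 1) (e : Ω → S) (x : Ω → T)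
    (R : Ω → U) (A : U → S → T → Prop) :
    ∃ f : U → S, (open Classical in Ex (glue p p R R)
      (fun v : Ω × Ω => if A (R v.1) (e v.1) (x v.2) then (1 : ℝ) else 0)) ≤
        ms p (fun ω => A (R ω) (f (R ω)) (x ω)) := by
  classical
  have hne : Nonempty Ω := by
    by_contra hc
    rw [not_nonempty_iff] at hc
    simp at h1
  have him : (univ.image e).Nonempty := Finset.univ_nonempty.image e
  set m : U → S → ℝ := fun r s => ∑ ω2, if R ω2 = r ∧ A r s (x ω2) then p ω2 else 0 with hm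
  choose f hf using fun r : U => Finset.exists_max_image (univ.image e) (m r) him
  refine ⟨f, ?_⟩
  have key : ∀ F : Ω → S, Ex (glue p p R R)
      (fun v : Ω × Ω => if A (R v.1) (F v.1) (x v.2) then (1 : ℝ) else 0) =
        ∑ ω1, p ω1 / law p R (R ω1) * m (R ω1) (F ω1) := by
    intro F
    unfold Ex
    rw [Fintype.sum_prod_type]
    refine Finset.sum_congr rfl fun ω1 _ => ?_
    rw [hm]
    simp only
    rw [Finset.mul_sum]
    refine Finset.sum_congr rfl fun ω2 _ => ?_
    unfold glue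
    by_cases h2 : R ω1 = R ω2
    · by_cases h3 : A (R ω1) (F ω1) (x ω2)
      · simp only [h2, if_true, true_and]
        rw [h2] at h3
        simp only [h3, if_true]
        ring
      · have h3' : ¬ A (R ω2) (F ω1) (x ω2) := by rw [← h2]; exact h3
        simp [h2, h3']
    · have h2' : ¬ R ω2 = R ω1 := fun h => h2 h.symm
      simp [h2, h2']
  rw [key e]
  have h2 : ∑ ω1, p ω1 / law p R (R ω1) * m (R ω1) (e ω1) ≤
      ∑ ω1, p ω1 / law p R (R ω1) * m (R ω1) (f (R ω1)) := by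
    refine Finset.sum_le_sum fun ω1 _ => ?_
    exact mul_le_mul_of_nonneg_left
      ((hf (R ω1)).2 (e ω1) (Finset.mem_image_of_mem e (Finset.mem_univ ω1)))
      (div_nonneg (hp ω1) (law_nonneg hp R _))
  refine h2.trans (le_of_eq ?_)
  rw [← key (fun ω => f (R ω))]
  unfold Ex ms
  rw [Fintype.sum_prod_type, Finset.sum_comm]
  refine Finset.sum_congr rfl fun ω2 _ => ?_
  have h3 : ∀ ω1, glue p p R R (ω1, ω2) * (if A (R ω1) (f (R ω1)) (x ω2) then (1 : ℝ) else 0) =
      glue p p R R (ω1, ω2) * (if A (R ω2) (f (R ω2)) (x ω2) then (1 : ℝ) else 0) := by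
    intro ω1
    by_cases h4 : R ω1 = R ω2
    · rw [h4]
    · unfold glue
      simp [h4]
  rw [Finset.sum_congr rfl fun ω1 _ => h3 ω1, ← Finset.sum_mul,
    glue_snd hp (fun _ => rfl) ω2]
  split_ifs <;> simp

/-- **Data processing.** `e` and `x` carry at most `d` of information on each other given `R`, the
relation `A (R, e, x)` has mass at least `c`: then some function `f` of the record has the relation
with `x` on an event of mass at least `exp (- (d + log 2) / c)`. -/
theorem dp_fun {p : Ω → ℝ} (hp : ∀ ω, 0 ≤ p ω) (h1 : ∑ ω, p ω = 1) (e : Ω → S) (x : Ω → T)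
    (R : Ω → U) (A : U → S → T → Prop) {c d : ℝ} (hc : 0 < c)
    (hA : c ≤ ms p (fun ω => A (R ω) (e ω) (x ω)))
    (hd : CH p e R - CH p e (fun ω => (x ω, R ω)) ≤ d) :
    ∃ f : U → S, Real.exp (-((d + Real.log 2) / c)) ≤ ms p (fun ω => A (R ω) (f (R ω)) (x ω)) := by
  classical
  obtain ⟨f, hf⟩ := prod_le hp h1 e x R A
  refine ⟨f, ?_⟩
  set M := ms p (fun ω => A (R ω) (f (R ω)) (x ω)) with hM
  set M0 := Real.exp (-((d + Real.log 2) / c)) with hM0
  have hM0p : 0 < M0 := Real.exp_pos _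
  by_contra hlt
  push Not at hlt
  have hMn : 0 ≤ M := ms_nonneg hp _
  set K := 1 / M0 with hK
  have hKp : 0 < K := by positivity
  set ψ : S × (T × U) → ℝ := fun s => 1 + K * (if A s.2.2 s.1 s.2.1 then 1 else 0) with hψ
  have hψ1 : ∀ s, 1 ≤ ψ s := by
    intro s
    rw [hψ]
    simp only
    split_ifs
    · linarith
    · linarith
  have hψ0 : ∀ s, 0 ≤ ψ s := fun s => zero_le_one.trans (hψ1 s)
  -- Jensen
  have j1 := Ex_log_le hp h1 (v := fun ω => wt p e x R ω * ψ (e ω, (x ω, R ω)))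
    (fun ω hω => mul_pos (wt_pos hp e x R hω) (lt_of_lt_of_le one_pos (hψ1 _)))
  have j2 : Ex p (fun ω => Real.log (wt p e x R ω * ψ (e ω, (x ω, R ω)))) =
      Ex p (fun ω => Real.log (wt p e x R ω)) + Ex p (fun ω => Real.log (ψ (e ω, (x ω, R ω)))) := by
    rw [← Ex_add]
    unfold Ex
    refine Finset.sum_congr rfl fun ω _ => ?_
    rcases (hp ω).eq_or_lt with h0 | h0
    · rw [← h0]; simp
    · beta_reduce
      rw [Real.log_mul (wt_pos hp e x R h0).ne' (lt_of_lt_of_le one_pos (hψ1 _)).ne']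
  have j3 : Ex p (fun ω => Real.log (ψ (e ω, (x ω, R ω)))) =
      Real.log (1 + K) * ms p (fun ω => A (R ω) (e ω) (x ω)) := by
    unfold Ex ms
    rw [Finset.mul_sum]
    refine Finset.sum_congr rfl fun ω _ => ?_
    rw [hψ]
    simp only
    split_ifs
    · rw [mul_one]; ring
    · simp
  have j4 : Ex (glue p p R R) (fun v : Ω × Ω => ψ (e v.1, (x v.2, R v.1))) ≤ 1 + K * M := by
    have e1 : Ex (glue p p R R) (fun v : Ω × Ω => ψ (e v.1, (x v.2, R v.1))) =
        Ex (glue p p R R) (fun _ => (1 : ℝ)) + K * Ex (glue p p R R)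
          (fun v : Ω × Ω => if A (R v.1) (e v.1) (x v.2) then (1 : ℝ) else 0) := by
      rw [← Ex_smul, ← Ex_add]
    have e2 : Ex (glue p p R R) (fun _ => (1 : ℝ)) = 1 := by
      unfold Ex
      simp only [mul_one]
      rw [sum_glue hp (fun _ => rfl), h1]
    rw [e1, e2]
    have := mul_le_mul_of_nonneg_left hf hKp.le
    linarith
  have j5 := Ex_wt_le hp e x R ψ hψ0
  have j6 : 0 < Ex p (fun ω => wt p e x R ω * ψ (e ω, (x ω, R ω))) := by
    have hne : ∃ ω, 0 < p ω := by
      by_contra hcc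
      push Not at hcc
      have : ∑ ω, p ω ≤ 0 := Finset.sum_nonpos fun ω _ => hcc ω
      linarith
    obtain ⟨ω, hω⟩ := hne
    unfold Ex
    refine Finset.sum_pos' (fun ω' _ => ?_) ⟨ω, Finset.mem_univ ω, mul_pos hω
      (mul_pos (wt_pos hp e x R hω) (lt_of_lt_of_le one_pos (hψ1 _)))⟩
    rcases (hp ω').eq_or_lt with h0 | h0
    · rw [← h0, zero_mul]
    · exact (mul_pos h0 (mul_pos (wt_pos hp e x R h0) (lt_of_lt_of_le one_pos (hψ1 _)))).le
  have j7 : Real.log (Ex p (fun ω => wt p e x R ω * ψ (e ω, (x ω, R ω)))) ≤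
      Real.log (1 + K * M) := Real.log_le_log j6 (j5.trans j4)
  rw [j2, Ex_log_wt hp, j3] at j1
  have hlK : 0 ≤ Real.log (1 + K) := Real.log_nonneg (by linarith)
  have j8 : c * Real.log (1 + K) ≤
      Real.log (1 + K) * ms p (fun ω => A (R ω) (e ω) (x ω)) := by
    rw [mul_comm]
    exact mul_le_mul_of_nonneg_left hA hlK
  have j9 : Real.log (1 + K * M) ≤ Real.log 2 := by
    refine Real.log_le_log (by positivity) ?_
    have : K * M ≤ 1 := by
      rw [hK, one_div, inv_mul_le_iff₀ hM0p]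
      linarith
    linarith
  have j10 : (d + Real.log 2) / c < Real.log (1 + K) := by
    have e1 : Real.log K = (d + Real.log 2) / c := by
      rw [hK, hM0, one_div, ← Real.exp_neg, neg_neg, Real.log_exp]
    rw [← e1]
    exact Real.log_lt_log hKp (by linarith)
  rw [div_lt_iff₀ hc] at j10
  nlinarith [j1, j7, j8, j9, j10, hd]

/-- Two samples over a common function both lie in an event: at least the square. -/
theorem ms_sq {p : Ω → ℝ} (hp : ∀ ω, 0 ≤ p ω) (h1 : ∑ ω, p ω = 1) (b : Ω → U)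
    (A : Ω → Prop) : ms p A ^ 2 ≤ ms (dbl p b) (fun v => A v.1 ∧ A v.2) := by
  classical
  set a : U → ℝ := fun r => ∑ ω, if b ω = r ∧ A ω then p ω else 0 with ha
  have e1 : ms p A = ∑ r ∈ univ.image b, a r := by
    rw [ha]
    simp only
    rw [Finset.sum_comm]
    unfold ms
    refine Finset.sum_congr rfl fun ω _ => ?_
    rw [Finset.sum_eq_single (b ω)]
    · simp
    · intro r _ hr
      rw [if_neg fun h => hr h.1.symm]
    · intro h
      exact absurd (Finset.mem_image_of_mem b (Finset.mem_univ ω)) h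
  have e2 : ms (dbl p b) (fun v => A v.1 ∧ A v.2) =
      ∑ r ∈ univ.image b, a r ^ 2 / law p b r := by
    have e3 : ∀ r, a r ^ 2 / law p b r = ∑ ω1, ∑ ω2, (if b ω1 = r ∧ A ω1 then p ω1 else 0) *
        (if b ω2 = r ∧ A ω2 then p ω2 else 0) / law p b r := by
      intro r
      rw [ha]
      simp only
      rw [sq, Finset.sum_mul_sum, Finset.sum_div]
      exact Finset.sum_congr rfl fun ω1 _ => by rw [Finset.sum_div]
    rw [Finset.sum_congr rfl fun r _ => e3 r, Finset.sum_comm]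
    unfold ms
    rw [Fintype.sum_prod_type]
    refine Finset.sum_congr rfl fun ω1 _ => ?_
    rw [Finset.sum_comm]
    refine Finset.sum_congr rfl fun ω2 _ => ?_
    rw [Finset.sum_eq_single (b ω1)]
    · unfold dbl glue
      by_cases h2 : b ω1 = b ω2
      · by_cases h3 : A ω1 <;> by_cases h4 : A ω2 <;> simp [h2, h3, h4]
      · have h2' : ¬ b ω2 = b ω1 := fun h => h2 h.symm
        simp [h2, h2']
    · intro r _ hr
      rw [if_neg fun h => hr h.1.symm]
      simp
    · intro h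
      exact absurd (Finset.mem_image_of_mem b (Finset.mem_univ ω1)) h
  rw [e1, e2]
  have hcs := Finset.sum_sq_le_sum_mul_sum_of_sq_le_mul (univ.image b)
    (r := a) (f := fun r => a r ^ 2 / law p b r) (g := fun r => law p b r)
    (fun r _ => div_nonneg (sq_nonneg _) (law_nonneg hp b r)) (fun r _ => law_nonneg hp b r)
    (fun r _ => by
      rcases (law_nonneg hp b r).eq_or_lt with h0 | h0
      · have : a r = 0 := by
          refine le_antisymm ?_ (Finset.sum_nonneg fun ω _ => by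
            split_ifs; exacts [hp ω, le_rfl])
          have h5 : a r ≤ law p b r := by
            rw [ha]
            unfold law
            refine Finset.sum_le_sum fun ω _ => ?_
            by_cases h6 : b ω = r
            · by_cases h7 : A ω
              · simp [h6, h7]
              · simp [h6, h7, hp ω]
            · simp [h6]
          rw [← h0] at h5
          exact h5
        simp [this]
      · rw [div_mul_cancel₀ _ h0.ne'])
  refine hcs.trans ?_
  rw [sum_law, h1, mul_one]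

/-! ### Copies over the exact point -/

section Copies

variable {Ω₁ Ω₂ : Type*} [Fintype Ω₁] [Fintype Ω₂] {S₁ S₂ : Type*}

/-- The information of two copies glued over `x` is at most the sum of the informations. -/
theorem info_glue {q : Ω₁ → ℝ} {p : Ω₂ → ℝ} (hq : ∀ ω, 0 ≤ q ω) (hp : ∀ ω, 0 ≤ p ω)
    {x₁ : Ω₁ → T} {x₂ : Ω₂ → T} (hZ : ∀ z, law q x₁ z = law p x₂ z) (e₁ : Ω₁ → S₁)
    (e₂ : Ω₂ → S₂) (R₁ : Ω₁ → U) (R₂ : Ω₂ → U)
    (hRR : ∀ v : Ω₁ × Ω₂, 0 < glue q p x₁ x₂ v → R₁ v.1 = R₂ v.2) :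
    CH (glue q p x₁ x₂) (fun v => (e₁ v.1, e₂ v.2)) (fun v => R₁ v.1) ≤
      CH (glue q p x₁ x₂) (fun v => (e₁ v.1, e₂ v.2)) (fun v => x₁ v.1) +
        ((CH q e₁ R₁ - CH q e₁ x₁) + (CH p e₂ R₂ - CH p e₂ x₂)) := by
  set G := glue q p x₁ x₂ with hG
  have hg : ∀ v, 0 ≤ G v := fun v => glue_nonneg hq hp v
  have hx : ∀ v : Ω₁ × Ω₂, 0 < G v → x₁ v.1 = x₂ v.2 := fun v hv =>
    ((glue_pos_iff hq hp v).1 hv).2.2
  -- upper bound
  have a1 : CH G (fun v => (e₁ v.1, e₂ v.2)) (fun v => R₁ v.1) ≤ CH q e₁ R₁ + CH p e₂ R₂ := by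
    have g1 := CH_subadd hg (fun v : Ω₁ × Ω₂ => e₁ v.1) (fun v => e₂ v.2) (fun v => R₁ v.1)
    have g2 : CH G (fun v : Ω₁ × Ω₂ => e₁ v.1) (fun v => R₁ v.1) = CH q e₁ R₁ := by
      have k1 := H_glue_fst hq hZ (fun ω => (e₁ ω, R₁ ω))
      have k2 := H_glue_fst hq hZ R₁
      unfold CH
      rw [k2, k1]
    have g3 : CH G (fun v : Ω₁ × Ω₂ => e₂ v.2) (fun v => R₁ v.1) = CH p e₂ R₂ := by
      have g4 : CH G (fun v : Ω₁ × Ω₂ => e₂ v.2) (fun v => R₁ v.1) =
          CH G (fun v : Ω₁ × Ω₂ => e₂ v.2) (fun v => R₂ v.2) := by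
        refine CH_congr hg (fun v w a b h => (Prod.ext_iff.mp h).1)
          (fun v w a b h => (Prod.ext_iff.mp h).1) ?_ ?_
        · intro v w a b h
          exact (hRR v a).symm.trans (h.trans (hRR w b))
        · intro v w a b h
          exact (hRR v a).trans (h.trans (hRR w b).symm)
      have k1 := H_glue_snd hp hZ (fun ω => (e₂ ω, R₂ ω))
      have k2 := H_glue_snd hp hZ R₂
      rw [g4]
      unfold CH
      rw [k2, k1]
    linarith
  -- the exact value over the point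
  have a2 : CH G (fun v => (e₁ v.1, e₂ v.2)) (fun v => x₁ v.1) = CH q e₁ x₁ + CH p e₂ x₂ := by
    have g1 : CH G (fun v => (e₁ v.1, e₂ v.2)) (fun v => x₁ v.1) =
        CH G (fun v : Ω₁ × Ω₂ => ((e₁ v.1, x₁ v.1), (e₂ v.2, x₂ v.2))) (fun v => x₁ v.1) := by
      refine CH_congr hg ?_ ?_ (fun _ _ _ _ h => h) (fun _ _ _ _ h => h)
      · intro v w a b h
        have h1 := (Prod.ext_iff.mp h).1
        have h2 := (Prod.ext_iff.mp h).2
        have h3 := Prod.ext_iff.mp h1
        exact Prod.ext (Prod.ext h3.1 h2)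
          (Prod.ext h3.2 ((hx v a).symm.trans (h2.trans (hx w b))))
      · intro v w a b h
        have h1 := Prod.ext_iff.mp (Prod.ext_iff.mp h).1
        exact Prod.ext (Prod.ext_iff.mp h1.1).1 (Prod.ext_iff.mp h1.2).1
    have g2 : H G (fun v : Ω₁ × Ω₂ => (((e₁ v.1, x₁ v.1), (e₂ v.2, x₂ v.2)), x₁ v.1)) =
        H G (fun v : Ω₁ × Ω₂ => ((e₁ v.1, x₁ v.1), (e₂ v.2, x₂ v.2))) := by
      refine H_congr hg ?_ (fun v w _ _ h => (Prod.ext_iff.mp h).1)
      intro v w _ _ h
      have h1 := Prod.ext_iff.mp (Prod.ext_iff.mp h).1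
      exact Prod.ext h h1.2
    have g3 := H_glue_pair (X := fun ω => (e₁ ω, x₁ ω)) (Y := fun ω => (e₂ ω, x₂ ω)) hq hp hZ
      (fun _ _ _ _ h => (Prod.ext_iff.mp h).2) (fun _ _ _ _ h => (Prod.ext_iff.mp h).2)
    have g4 := H_glue_fst hq hZ x₁
    have g5 : H q x₁ = H p x₂ := by
      have k1 := H_glue_fst hq hZ x₁
      have k2 := H_glue_snd hp hZ x₂
      rw [← k1, ← k2]
      refine H_congr hg ?_ ?_
      · intro v w a b h
        exact (hx v a).trans (h.trans (hx w b).symm)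
      · intro v w a b h
        exact (hx v a).symm.trans (h.trans (hx w b))
    rw [g1]
    unfold CH
    rw [g2, g4, g3]
    linarith
  rw [a2]
  linarith

end Copies

/-- **Two copies over the exact point.** `free`: the exact point does not know more of the
direction than the record. -/
theorem dp_dbl {p : Ω → ℝ} (hp : ∀ ω, 0 ≤ p ω) (h1 : ∑ ω, p ω = 1) (e : Ω → S) (x : Ω → T)
    (R : Ω → U) (hR : Det p x R) (A : U → S × S → T → Prop) {c d : ℝ} (hc : 0 < c)
    (hA : c ≤ ms (dbl p x) (fun v => A (R v.1) (e v.1, e v.2) (x v.1)))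
    (free : CH p e R ≤ CH p e x + d) :
    ∃ f : U → S × S, Real.exp (-((2 * d + Real.log 2) / c)) ≤
      ms p (fun ω => A (R ω) (f (R ω)) (x ω)) := by
  classical
  have hq : ∀ v, 0 ≤ dbl p x v := fun v => glue_nonneg hp hp v
  have hq1 : ∑ v, dbl p x v = 1 := by
    unfold dbl
    rw [sum_glue hp (fun _ => rfl), h1]
  have hi := info_glue hp hp (fun _ => rfl) e e R R (fun v hv => by
    obtain ⟨a1, a2, a3⟩ := (glue_pos_iff hp hp v).1 hv
    exact hR _ _ a1 a2 a3)
  have hx : CH (dbl p x) (fun v : Ω × Ω => (e v.1, e v.2)) (fun v => x v.1) =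
      CH (dbl p x) (fun v : Ω × Ω => (e v.1, e v.2)) (fun v => (x v.1, R v.1)) :=
    CH_congr hq (fun _ _ _ _ h => (Prod.ext_iff.mp h).1) (fun _ _ _ _ h => (Prod.ext_iff.mp h).1)
      (fun v w a b h => Prod.ext h (hR _ _ ((glue_pos_iff hp hp v).1 a).1
        ((glue_pos_iff hp hp w).1 b).1 h)) (fun _ _ _ _ h => (Prod.ext_iff.mp h).1)
  obtain ⟨f, hf⟩ := dp_fun hq hq1 (fun v => (e v.1, e v.2)) (fun v => x v.1) (fun v => R v.1) A hc
    hA (d := 2 * d) (by
      rw [← hx]
      have : CH (dbl p x) (fun v : Ω × Ω => (e v.1, e v.2)) (fun v => R v.1) ≤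
        CH (dbl p x) (fun v : Ω × Ω => (e v.1, e v.2)) (fun v => x v.1) +
          ((CH p e R - CH p e x) + (CH p e R - CH p e x)) := hi
      linarith)
  refine ⟨f, hf.trans (le_of_eq ?_)⟩
  unfold ms
  rw [Fintype.sum_prod_type]
  refine Finset.sum_congr rfl fun ω _ => ?_
  by_cases h : A (R ω) (f (R ω)) (x ω)
  · simp only [h, if_true]
    exact glue_fst hp (fun _ => rfl) ω
  · simp [h]

/-- **Three copies over the exact point.** -/
theorem dp_tri {p : Ω → ℝ} (hp : ∀ ω, 0 ≤ p ω) (h1 : ∑ ω, p ω = 1) (e : Ω → S) (x : Ω → T)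
    (R : Ω → U) (hR : Det p x R) (A : U → (S × S) × S → T → Prop) {c d : ℝ} (hc : 0 < c)
    (hA : c ≤ ms (tri p x) (fun v => A (R v.1.1) ((e v.1.1, e v.1.2), e v.2) (x v.1.1)))
    (free : CH p e R ≤ CH p e x + d) :
    ∃ f : U → (S × S) × S, Real.exp (-((3 * d + Real.log 2) / c)) ≤
      ms p (fun ω => A (R ω) (f (R ω)) (x ω)) := by
  classical
  have hq : ∀ v, 0 ≤ dbl p x v := fun v => glue_nonneg hp hp v
  have hq1 : ∑ v, dbl p x v = 1 := by
    unfold dbl
    rw [sum_glue hp (fun _ => rfl), h1]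
  have hZ : ∀ z, law (dbl p x) (fun w : Ω × Ω => x w.1) z = law p x z := fun z =>
    law_glue_fst hp (fun _ => rfl) x z
  have hi2 := info_glue hp hp (fun _ => rfl) e e R R (fun v hv => by
    obtain ⟨a1, a2, a3⟩ := (glue_pos_iff hp hp v).1 hv
    exact hR _ _ a1 a2 a3)
  have hi := info_glue (q := dbl p x) (p := p) hq hp (x₁ := fun w : Ω × Ω => x w.1) (x₂ := x) hZ
    (fun v => (e v.1, e v.2)) e (fun w => R w.1) R (fun v hv => by
      obtain ⟨a1, a2, a3⟩ := (glue_pos_iff hq hp v).1 hv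
      exact hR _ _ ((glue_pos_iff hp hp v.1).1 a1).1 a2 a3)
  have hr : ∀ v, 0 ≤ tri p x v := fun v => glue_nonneg hq hp v
  have hr1 : ∑ v, tri p x v = 1 := by
    unfold tri
    rw [sum_glue hq hZ, hq1]
  have hx : CH (tri p x) (fun v : (Ω × Ω) × Ω => ((e v.1.1, e v.1.2), e v.2))
      (fun v => x v.1.1) =
      CH (tri p x) (fun v : (Ω × Ω) × Ω => ((e v.1.1, e v.1.2), e v.2))
        (fun v => (x v.1.1, R v.1.1)) :=
    CH_congr hr (fun _ _ _ _ h => (Prod.ext_iff.mp h).1) (fun _ _ _ _ h => (Prod.ext_iff.mp h).1)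
      (fun v w a b h => Prod.ext h (hR _ _
        ((glue_pos_iff hp hp v.1).1 ((glue_pos_iff hq hp v).1 a).1).1
        ((glue_pos_iff hp hp w.1).1 ((glue_pos_iff hq hp w).1 b).1).1 h))
      (fun _ _ _ _ h => (Prod.ext_iff.mp h).1)
  obtain ⟨f, hf⟩ := dp_fun hr hr1 (fun v => ((e v.1.1, e v.1.2), e v.2)) (fun v => x v.1.1)
    (fun v => R v.1.1) A hc hA (d := 3 * d) (by
      rw [← hx]
      have k1 : CH (tri p x) (fun v : (Ω × Ω) × Ω => ((e v.1.1, e v.1.2), e v.2))
          (fun v => R v.1.1) ≤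
        CH (tri p x) (fun v : (Ω × Ω) × Ω => ((e v.1.1, e v.1.2), e v.2)) (fun v => x v.1.1) +
          ((CH (dbl p x) (fun v : Ω × Ω => (e v.1, e v.2)) (fun v => R v.1) -
            CH (dbl p x) (fun v : Ω × Ω => (e v.1, e v.2)) (fun v => x v.1)) +
            (CH p e R - CH p e x)) := hi
      have k2 : CH (dbl p x) (fun v : Ω × Ω => (e v.1, e v.2)) (fun v => R v.1) ≤
        CH (dbl p x) (fun v : Ω × Ω => (e v.1, e v.2)) (fun v => x v.1) +
          ((CH p e R - CH p e x) + (CH p e R - CH p e x)) := hi2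
      linarith)
  refine ⟨f, hf.trans (le_of_eq ?_)⟩
  unfold ms
  rw [Fintype.sum_prod_type, Fintype.sum_prod_type]
  refine Finset.sum_congr rfl fun ω _ => ?_
  by_cases h : A (R ω) (f (R ω)) (x ω)
  · simp only [h, if_true]
    have k1 : ∀ ω2, ∑ ω3, tri p x ((ω, ω2), ω3) = dbl p x (ω, ω2) := fun ω2 =>
      glue_fst (p₁ := dbl p x) (p₂ := p) (Z₁ := fun w : Ω × Ω => x w.1) (Z₂ := x) hq hZ (ω, ω2)
    rw [Finset.sum_congr rfl fun ω2 _ => k1 ω2]
    exact glue_fst hp (fun _ => rfl) ω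
  · simp [h]

end Pool.GAP
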