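import Pool.Agent.H11.GAP.Dp

/-!
# The gradient is closed: function form, freeness, copies over the exact point

`D` = own velocity of a coordinate, `Gam (x)` = its gradient over `(t, V0)` at the exact point,
`E` = velocity of `V0`.  If the velocity is, up to `M`, a function of the record and the direction
(pairs over `(R, e)` are near with probability `≥ 1 - c`), and the direction is nearly independent
of the exact point given the record, then the gradient is near a function of the record on an event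
of mass `≥ exp (- (C d + log 2) / ..)`.
-/

set_option autoImplicit false

namespace Pool.GAP

open Finset Real
open Pool.Agent.H49.Ent Pool.Agent.H32.Dense

variable {Ω : Type*} [Fintype Ω] {S T U V β : Type*}

/-- **Function form.** If two copies over `B` are near with large probability, then the variable is
near a function of `B`. -/
theorem ff_fun {p : Ω → ℝ} (hp : ∀ ω, 0 ≤ p ω) (h1 : ∑ ω, p ω = 1) (B : Ω → β) (D : Ω → V)
    (N : V → V → Prop) :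
    ∃ g : β → V, ms p (fun ω => ¬ N (D ω) (g (B ω))) ≤
      ms (dbl p B) (fun v => ¬ N (D v.1) (D v.2)) := by
  classical
  have hne : Nonempty Ω := by
    by_contra hc
    rw [not_nonempty_iff] at hc
    simp at h1
  have him : (univ.image D).Nonempty := Finset.univ_nonempty.image D
  set m : β → V → ℝ := fun b s => ∑ ω1, if B ω1 = b ∧ ¬ N (D ω1) s then p ω1 else 0 with hm
  choose g hg using fun b : β => Finset.exists_min_image (univ.image D) (m b) him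
  refine ⟨g, ?_⟩
  have key : ∀ F : Ω → V, ms (dbl p B) (fun v => ¬ N (D v.1) (F v.2)) =
        ∑ ω2, p ω2 / law p B (B ω2) * m (B ω2) (F ω2) := by
    intro F
    unfold ms
    rw [Fintype.sum_prod_type, Finset.sum_comm]
    refine Finset.sum_congr rfl fun ω2 _ => ?_
    rw [hm]
    simp only
    rw [Finset.mul_sum]
    refine Finset.sum_congr rfl fun ω1 _ => ?_
    unfold dbl glue
    by_cases h2 : B ω1 = B ω2
    · by_cases h3 : N (D ω1) (F ω2)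
      · simp [h2, h3]
      · simp only [h2, if_true, true_and, h3, not_false_iff]
        ring
    · simp [h2]
  rw [key D]
  have h2 : ∑ ω2, p ω2 / law p B (B ω2) * m (B ω2) (g (B ω2)) ≤
      ∑ ω2, p ω2 / law p B (B ω2) * m (B ω2) (D ω2) := by
    refine Finset.sum_le_sum fun ω2 _ => ?_
    exact mul_le_mul_of_nonneg_left
      ((hg (B ω2)).2 (D ω2) (Finset.mem_image_of_mem D (Finset.mem_univ ω2)))
      (div_nonneg (hp ω2) (law_nonneg hp B _))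
  refine le_trans (le_of_eq ?_) h2
  rw [← key (fun ω => g (B ω))]
  unfold ms
  rw [Fintype.sum_prod_type]
  refine Finset.sum_congr rfl fun ω1 _ => ?_
  by_cases h5 : N (D ω1) (g (B ω1))
  · rw [if_neg (not_not.2 h5)]
    refine (Finset.sum_eq_zero fun ω2 _ => ?_).symm
    by_cases h4 : B ω1 = B ω2
    · rw [if_neg]
      simp only [not_not]
      rw [← h4]
      exact h5
    · unfold dbl glue
      simp [h4]
  · rw [if_pos h5]
    rw [← glue_fst hp (fun _ => rfl) ω1 (Z₁ := B) (Z₂ := B)]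
    refine Finset.sum_congr rfl fun ω2 _ => ?_
    by_cases h4 : B ω1 = B ω2
    · rw [if_pos]
      · rfl
      · simp only
        rw [← h4]
        exact h5
    · unfold dbl glue
      simp [h4]

/-- The complement. -/
theorem ms_compl {p : Ω → ℝ} (h1 : ∑ ω, p ω = 1) (A : Ω → Prop) :
    ms p (fun ω => ¬ A ω) = 1 - ms p A := by
  classical
  unfold ms
  rw [eq_sub_iff_add_eq, ← Finset.sum_add_distrib, ← h1]
  refine Finset.sum_congr rfl fun ω _ => ?_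
  by_cases h : A ω <;> simp [h]

/-- Union bound. -/
theorem ms_or {p : Ω → ℝ} (hp : ∀ ω, 0 ≤ p ω) (A B : Ω → Prop) :
    ms p (fun ω => A ω ∨ B ω) ≤ ms p A + ms p B := by
  classical
  unfold ms
  rw [← Finset.sum_add_distrib]
  refine Finset.sum_le_sum fun ω _ => ?_
  have := hp ω
  by_cases hA : A ω <;> by_cases hB : B ω <;> simp [hA, hB, this]

theorem ms_dbl_fst {p : Ω → ℝ} (hp : ∀ ω, 0 ≤ p ω) (x : Ω → T) (A : Ω → Prop) :
    ms (dbl p x) (fun v => A v.1) = ms p A := by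
  classical
  unfold ms
  rw [Fintype.sum_prod_type]
  refine Finset.sum_congr rfl fun ω _ => ?_
  by_cases h : A ω
  · simp only [h, if_true]
    exact glue_fst hp (fun _ => rfl) ω
  · simp [h]

theorem ms_dbl_snd {p : Ω → ℝ} (hp : ∀ ω, 0 ≤ p ω) (x : Ω → T) (A : Ω → Prop) :
    ms (dbl p x) (fun v => A v.2) = ms p A := by
  classical
  unfold ms
  rw [Fintype.sum_prod_type, Finset.sum_comm]
  refine Finset.sum_congr rfl fun ω _ => ?_
  by_cases h : A ω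
  · simp only [h, if_true]
    exact glue_snd hp (fun _ => rfl) ω
  · simp [h]

theorem tri_hZ {p : Ω → ℝ} (hp : ∀ ω, 0 ≤ p ω) (x : Ω → T) (z : T) :
    law (dbl p x) (fun w : Ω × Ω => x w.1) z = law p x z := law_glue_fst hp (fun _ => rfl) x z

theorem ms_tri_fst {p : Ω → ℝ} (hp : ∀ ω, 0 ≤ p ω) (x : Ω → T) (A : Ω × Ω → Prop) :
    ms (tri p x) (fun v => A v.1) = ms (dbl p x) A := by
  classical
  have hq : ∀ v, 0 ≤ dbl p x v := fun v => glue_nonneg hp hp v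
  unfold ms
  rw [Fintype.sum_prod_type]
  refine Finset.sum_congr rfl fun w _ => ?_
  by_cases h : A w
  · simp only [h, if_true]
    exact glue_fst (p₁ := dbl p x) (p₂ := p) (Z₁ := fun w : Ω × Ω => x w.1) (Z₂ := x) hq
      (tri_hZ hp x) w
  · simp [h]

theorem ms_tri_snd {p : Ω → ℝ} (hp : ∀ ω, 0 ≤ p ω) (x : Ω → T) (A : Ω → Prop) :
    ms (tri p x) (fun v => A v.2) = ms p A := by
  classical
  unfold ms
  rw [Fintype.sum_prod_type, Finset.sum_comm]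
  refine Finset.sum_congr rfl fun ω _ => ?_
  by_cases h : A ω
  · simp only [h, if_true]
    exact glue_snd (p₁ := dbl p x) (p₂ := p) (Z₁ := fun w : Ω × Ω => x w.1) (Z₂ := x) hp
      (tri_hZ hp x) ω
  · simp [h]

/-! ### One slow coordinate: two copies -/

/-- Two equations. -/
theorem solve2 {a1 a2 u v ρ L δ : ℝ} (hL : 1 ≤ L) (h1 : |a1| ≤ L) (h2 : |a2| ≤ L) (hδ : 0 < δ)
    (hd : δ ≤ |a2 - a1|) (e1 : |u + v * a1| ≤ ρ) (e2 : |u + v * a2| ≤ ρ) :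
    |u| ≤ 4 * L * ρ / δ ∧ |v| ≤ 4 * L * ρ / δ := by
  have hρ : 0 ≤ ρ := (abs_nonneg _).trans e1
  have hv : δ * |v| ≤ 2 * ρ := by
    calc δ * |v| ≤ |a2 - a1| * |v| := mul_le_mul_of_nonneg_right hd (abs_nonneg _)
      _ = |(u + v * a2) - (u + v * a1)| := by rw [← abs_mul]; congr 1; ring
      _ ≤ |u + v * a2| + |u + v * a1| := abs_sub _ _
      _ ≤ 2 * ρ := by linarith
  have hu : δ * |u| ≤ 2 * L * ρ := by
    calc δ * |u| ≤ |a2 - a1| * |u| := mul_le_mul_of_nonneg_right hd (abs_nonneg _)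
      _ = |a2 * (u + v * a1) - a1 * (u + v * a2)| := by rw [← abs_mul]; congr 1; ring
      _ ≤ |a2 * (u + v * a1)| + |a1 * (u + v * a2)| := abs_sub _ _
      _ ≤ L * ρ + L * ρ := by
        rw [abs_mul, abs_mul]
        exact add_le_add (mul_le_mul h2 e1 (abs_nonneg _) (by linarith))
          (mul_le_mul h1 e2 (abs_nonneg _) (by linarith))
      _ = 2 * L * ρ := by ring
  constructor
  · rw [le_div_iff₀ hδ]
    nlinarith
  · rw [le_div_iff₀ hδ]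
    nlinarith

/-- **The gradient over `(t, V0)`, one slow coordinate.** -/
theorem gain_dbl {p : Ω → ℝ} (hp : ∀ ω, 0 ≤ p ω) (h1 : ∑ ω, p ω = 1) (e : Ω → S) (x : Ω → T)
    (R : Ω → U) (hR : Det p x R) (E : S → ℝ) (G0 G1 : T → ℝ) (D : Ω → ℝ) {L K M δ c c' d : ℝ}
    (hL : 1 ≤ L) (hE : ∀ ω, 0 < p ω → |E (e ω)| ≤ L)
    (hD : ∀ ω, 0 < p ω → |D ω - (G0 (x ω) + G1 (x ω) * E (e ω))| ≤ K)
    (ff : ms (dbl p (fun ω => (R ω, e ω))) (fun v => ¬ |D v.1 - D v.2| ≤ M) ≤ c)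
    (hδ : 0 < δ) (gp : ms (dbl p x) (fun v => ¬ δ ≤ |E (e v.2) - E (e v.1)|) ≤ c')
    (hc : 2 * c + c' < 1) (free : CH p e R ≤ CH p e x + d) :
    ∃ f0 f1 : U → ℝ, Real.exp (-((2 * d + Real.log 2) / (1 - (2 * c + c')))) ≤
      ms p (fun ω => |G0 (x ω) - f0 (R ω)| ≤ 8 * L * (M + K) / δ ∧
        |G1 (x ω) - f1 (R ω)| ≤ 8 * L * (M + K) / δ) := by
  classical
  obtain ⟨g, hg⟩ := ff_fun hp h1 (fun ω => (R ω, e ω)) D (fun a b => |a - b| ≤ M)
  set A : U → S × S → T → Prop := fun r s t =>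
    (|E s.1| ≤ L ∧ |E s.2| ≤ L ∧ δ ≤ |E s.2 - E s.1|) ∧
      |(G0 t + G1 t * E s.1) - g (r, s.1)| ≤ M + K ∧
      |(G0 t + G1 t * E s.2) - g (r, s.2)| ≤ M + K with hAdef
  have hq : ∀ v, 0 ≤ dbl p x v := fun v => glue_nonneg hp hp v
  have hq1 : ∑ v, dbl p x v = 1 := by
    unfold dbl
    rw [sum_glue hp (fun _ => rfl), h1]
  have hA : 1 - (2 * c + c') ≤ ms (dbl p x) (fun v => A (R v.1) (e v.1, e v.2) (x v.1)) := by
    have k1 := ms_compl hq1 (fun v => A (R v.1) (e v.1, e v.2) (x v.1))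
    have k2 : ms (dbl p x) (fun v => ¬ A (R v.1) (e v.1, e v.2) (x v.1)) ≤
        ms (dbl p x) (fun v => (¬ |D v.1 - g (R v.1, e v.1)| ≤ M ∨
          ¬ |D v.2 - g (R v.2, e v.2)| ≤ M) ∨ ¬ δ ≤ |E (e v.2) - E (e v.1)|) := by
      refine ms_mono hq fun v hv hn => ?_
      obtain ⟨a1, a2, a3⟩ := (glue_pos_iff hp hp v).1 hv
      by_contra hcon
      push Not at hcon
      refine hn ⟨⟨hE _ a1, hE _ a2, hcon.2⟩, ?_, ?_⟩
      · have b1 := hD _ a1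
        have b2 := hcon.1.1
        rw [abs_le] at b1 b2 ⊢
        constructor <;> simp only <;> linarith
      · have b1 := hD _ a2
        have b2 := hcon.1.2
        rw [← a3] at b1
        rw [← hR _ _ a1 a2 a3] at b2
        rw [abs_le] at b1 b2 ⊢
        constructor <;> simp only <;> linarith
    have k3 := ms_or hq (fun v : Ω × Ω => ¬ |D v.1 - g (R v.1, e v.1)| ≤ M ∨
          ¬ |D v.2 - g (R v.2, e v.2)| ≤ M) (fun v => ¬ δ ≤ |E (e v.2) - E (e v.1)|)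
    have k4 := ms_or hq (fun v : Ω × Ω => ¬ |D v.1 - g (R v.1, e v.1)| ≤ M)
      (fun v : Ω × Ω => ¬ |D v.2 - g (R v.2, e v.2)| ≤ M)
    have k5 := ms_dbl_fst hp x (fun ω => ¬ |D ω - g (R ω, e ω)| ≤ M)
    have k6 := ms_dbl_snd hp x (fun ω => ¬ |D ω - g (R ω, e ω)| ≤ M)
    linarith
  obtain ⟨f, hf⟩ := dp_dbl hp h1 e x R hR A (by linarith : 0 < 1 - (2 * c + c')) hA free
  -- a reference point for every record
  set t0 : U → Option T := fun r => if h : ∃ t, A r (f r) t then some h.choose else none with ht0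
  refine ⟨fun r => (t0 r).elim 0 G0, fun r => (t0 r).elim 0 G1, hf.trans ?_⟩
  refine ms_mono hp fun ω _ hω => ?_
  have hex : ∃ t, A (R ω) (f (R ω)) t := ⟨_, hω⟩
  have e1 : t0 (R ω) = some hex.choose := by
    rw [ht0]
    simp only
    rw [dif_pos hex]
  beta_reduce
  rw [e1]
  simp only [Option.elim_some]
  obtain ⟨⟨b1, b2, b3⟩, b4, b5⟩ := hω
  obtain ⟨-, b6, b7⟩ := hex.choose_spec
  set t := hex.choose
  have key := solve2 (u := G0 (x ω) - G0 t) (v := G1 (x ω) - G1 t) (ρ := 2 * (M + K)) hL b1 b2 hδ b3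
    (by rw [abs_le] at b4 b6 ⊢; constructor <;> linarith)
    (by rw [abs_le] at b5 b7 ⊢; constructor <;> linarith)
  have e2 : 4 * L * (2 * (M + K)) / δ = 8 * L * (M + K) / δ := by ring
  rw [e2] at key
  exact key

/-! ### Two slow coordinates: three copies -/

/-- The determinant of three directions `(1, a_i, b_i)`. -/
def dt (a1 b1 a2 b2 a3 b3 : ℝ) : ℝ := (a2 - a1) * (b3 - b1) - (a3 - a1) * (b2 - b1)

/-- Three equations. -/
theorem solve3 {a1 b1 a2 b2 a3 b3 u v w ρ L δ : ℝ} (hL : 1 ≤ L) (ha1 : |a1| ≤ L) (hb1 : |b1| ≤ L)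
    (ha2 : |a2| ≤ L) (hb2 : |b2| ≤ L) (ha3 : |a3| ≤ L) (hb3 : |b3| ≤ L) (hδ : 0 < δ)
    (hd : δ ≤ |dt a1 b1 a2 b2 a3 b3|) (e1 : |u + v * a1 + w * b1| ≤ ρ)
    (e2 : |u + v * a2 + w * b2| ≤ ρ) (e3 : |u + v * a3 + w * b3| ≤ ρ) :
    |u| ≤ 6 * L ^ 2 * ρ / δ ∧ |v| ≤ 6 * L ^ 2 * ρ / δ ∧ |w| ≤ 6 * L ^ 2 * ρ / δ := by
  have hρ : 0 ≤ ρ := (abs_nonneg _).trans e1
  have hL2 : L ≤ L ^ 2 := by nlinarith
  have gen : ∀ y c1 c2 c3 : ℝ, |c1| ≤ 2 * L ^ 2 → |c2| ≤ 2 * L ^ 2 → |c3| ≤ 2 * L ^ 2 →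
      dt a1 b1 a2 b2 a3 b3 * y = c1 * (u + v * a1 + w * b1) + c2 * (u + v * a2 + w * b2) +
        c3 * (u + v * a3 + w * b3) → |y| ≤ 6 * L ^ 2 * ρ / δ := by
    intro y c1 c2 c3 h1 h2 h3 he
    rw [le_div_iff₀ hδ]
    calc |y| * δ ≤ |y| * |dt a1 b1 a2 b2 a3 b3| := mul_le_mul_of_nonneg_left hd (abs_nonneg _)
      _ = |c1 * (u + v * a1 + w * b1) + c2 * (u + v * a2 + w * b2) +
        c3 * (u + v * a3 + w * b3)| := by rw [← he, abs_mul]; ring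
      _ ≤ |c1 * (u + v * a1 + w * b1)| + |c2 * (u + v * a2 + w * b2)| +
        |c3 * (u + v * a3 + w * b3)| := abs_add_three _ _ _
      _ ≤ 2 * L ^ 2 * ρ + 2 * L ^ 2 * ρ + 2 * L ^ 2 * ρ := by
        rw [abs_mul, abs_mul, abs_mul]
        have : (0 : ℝ) ≤ 2 * L ^ 2 := by positivity
        exact add_le_add (add_le_add (mul_le_mul h1 e1 (abs_nonneg _) this)
          (mul_le_mul h2 e2 (abs_nonneg _) this)) (mul_le_mul h3 e3 (abs_nonneg _) this)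
      _ = 6 * L ^ 2 * ρ := by ring
  have p2 : ∀ a b a' b' : ℝ, |a| ≤ L → |b| ≤ L → |a'| ≤ L → |b'| ≤ L →
      |a * b - a' * b'| ≤ 2 * L ^ 2 := by
    intro a b a' b' x1 x2 x3 x4
    calc |a * b - a' * b'| ≤ |a * b| + |a' * b'| := abs_sub _ _
      _ ≤ L * L + L * L := by
        rw [abs_mul, abs_mul]
        exact add_le_add (mul_le_mul x1 x2 (abs_nonneg _) (by linarith))
          (mul_le_mul x3 x4 (abs_nonneg _) (by linarith))
      _ = 2 * L ^ 2 := by ring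
  have p1 : ∀ a b : ℝ, |a| ≤ L → |b| ≤ L → |a - b| ≤ 2 * L ^ 2 := by
    intro a b x1 x2
    calc |a - b| ≤ |a| + |b| := abs_sub _ _
      _ ≤ 2 * L ^ 2 := by linarith
  refine ⟨gen u (a2 * b3 - a3 * b2) (a3 * b1 - a1 * b3) (a1 * b2 - a2 * b1)
      (p2 _ _ _ _ ha2 hb3 ha3 hb2) (p2 _ _ _ _ ha3 hb1 ha1 hb3) (p2 _ _ _ _ ha1 hb2 ha2 hb1)
      (by unfold dt; ring),
    gen v (b2 - b3) (b3 - b1) (b1 - b2) (p1 _ _ hb2 hb3) (p1 _ _ hb3 hb1) (p1 _ _ hb1 hb2)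
      (by unfold dt; ring),
    gen w (a3 - a2) (a1 - a3) (a2 - a1) (p1 _ _ ha3 ha2) (p1 _ _ ha1 ha3) (p1 _ _ ha2 ha1)
      (by unfold dt; ring)⟩

/-- **The gradient over `(t, V0)`, two slow coordinates, with a slope `kap` which is both a function
of the record and the direction and a function of the exact point** (take `kap = 0` if there is
none). -/
theorem gain_tri {p : Ω → ℝ} (hp : ∀ ω, 0 ≤ p ω) (h1 : ∑ ω, p ω = 1) (e : Ω → S) (x : Ω → T)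
    (R : Ω → U) (hR : Det p x R) (E1 E2 : S → ℝ) (G0 G1 G2 : T → ℝ) (D : Ω → ℝ) (κp : T → ℝ)
    (κr : U × S → ℝ) {L K M M' δ c c₁ c' d : ℝ}
    (hL : 1 ≤ L) (hE1 : ∀ ω, 0 < p ω → |E1 (e ω)| ≤ L) (hE2 : ∀ ω, 0 < p ω → |E2 (e ω)| ≤ L)
    (hD : ∀ ω, 0 < p ω → |D ω - (G0 (x ω) + G1 (x ω) * E1 (e ω) + G2 (x ω) * E2 (e ω))| ≤ K)
    (ff : ms (dbl p (fun ω => (R ω, e ω))) (fun v => ¬ |D v.1 - D v.2| ≤ M) ≤ c)
    (fk : ms p (fun ω => ¬ |κp (x ω) - κr (R ω, e ω)| ≤ M') ≤ c₁)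
    (hδ : 0 < δ) (gp : ms (tri p x) (fun v => ¬ δ ≤ |dt (E1 (e v.1.1)) (E2 (e v.1.1))
      (E1 (e v.1.2)) (E2 (e v.1.2)) (E1 (e v.2)) (E2 (e v.2))|) ≤ c')
    (hc : 3 * c + c₁ + c' < 1) (free : CH p e R ≤ CH p e x + d) :
    ∃ f0 f1 f2 fk : U → ℝ,
      Real.exp (-((3 * d + Real.log 2) / (1 - (3 * c + c₁ + c')))) ≤
      ms p (fun ω => (|G0 (x ω) - f0 (R ω)| ≤ 12 * L ^ 2 * (M + K) / δ ∧
        |G1 (x ω) - f1 (R ω)| ≤ 12 * L ^ 2 * (M + K) / δ ∧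
        |G2 (x ω) - f2 (R ω)| ≤ 12 * L ^ 2 * (M + K) / δ) ∧ |κp (x ω) - fk (R ω)| ≤ M') := by
  classical
  obtain ⟨g, hg⟩ := ff_fun hp h1 (fun ω => (R ω, e ω)) D (fun a b => |a - b| ≤ M)
  set A : U → (S × S) × S → T → Prop := fun r s t =>
    (((|E1 s.1.1| ≤ L ∧ |E2 s.1.1| ≤ L) ∧ (|E1 s.1.2| ≤ L ∧ |E2 s.1.2| ≤ L) ∧
      (|E1 s.2| ≤ L ∧ |E2 s.2| ≤ L)) ∧ δ ≤ |dt (E1 s.1.1) (E2 s.1.1)
      (E1 s.1.2) (E2 s.1.2) (E1 s.2) (E2 s.2)|) ∧
      (|(G0 t + G1 t * E1 s.1.1 + G2 t * E2 s.1.1) - g (r, s.1.1)| ≤ M + K ∧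
      |(G0 t + G1 t * E1 s.1.2 + G2 t * E2 s.1.2) - g (r, s.1.2)| ≤ M + K ∧
      |(G0 t + G1 t * E1 s.2 + G2 t * E2 s.2) - g (r, s.2)| ≤ M + K) ∧
      |κp t - κr (r, s.1.1)| ≤ M' with hAdef
  have hq : ∀ v, 0 ≤ dbl p x v := fun v => glue_nonneg hp hp v
  have hr : ∀ v, 0 ≤ tri p x v := fun v => glue_nonneg hq hp v
  have hq1 : ∑ v, dbl p x v = 1 := by
    unfold dbl
    rw [sum_glue hp (fun _ => rfl), h1]
  have hr1 : ∑ v, tri p x v = 1 := by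
    unfold tri
    rw [sum_glue hq (tri_hZ hp x), hq1]
  have hA : 1 - (3 * c + c₁ + c') ≤
      ms (tri p x) (fun v => A (R v.1.1) ((e v.1.1, e v.1.2), e v.2) (x v.1.1)) := by
    have k1 := ms_compl hr1 (fun v => A (R v.1.1) ((e v.1.1, e v.1.2), e v.2) (x v.1.1))
    have k2 : ms (tri p x) (fun v => ¬ A (R v.1.1) ((e v.1.1, e v.1.2), e v.2) (x v.1.1)) ≤
        ms (tri p x) (fun v => (((¬ |D v.1.1 - g (R v.1.1, e v.1.1)| ≤ M ∨
          ¬ |D v.1.2 - g (R v.1.2, e v.1.2)| ≤ M) ∨ ¬ |D v.2 - g (R v.2, e v.2)| ≤ M) ∨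
          ¬ |κp (x v.1.1) - κr (R v.1.1, e v.1.1)| ≤ M') ∨
          ¬ δ ≤ |dt (E1 (e v.1.1)) (E2 (e v.1.1))
            (E1 (e v.1.2)) (E2 (e v.1.2)) (E1 (e v.2)) (E2 (e v.2))|) := by
      refine ms_mono hr fun v hv hn => ?_
      obtain ⟨a0, a3, a4⟩ := (glue_pos_iff hq hp v).1 hv
      obtain ⟨a1, a2, a5⟩ := (glue_pos_iff hp hp v.1).1 a0
      by_contra hcon
      push Not at hcon
      obtain ⟨⟨⟨⟨c1, c2⟩, c3⟩, c4⟩, c5⟩ := hcon
      refine hn ⟨⟨⟨⟨hE1 _ a1, hE2 _ a1⟩, ⟨hE1 _ a2, hE2 _ a2⟩, ⟨hE1 _ a3, hE2 _ a3⟩⟩, c5⟩,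
        ⟨?_, ?_, ?_⟩, c4⟩
      · have b1 := hD _ a1
        rw [abs_le] at b1 c1 ⊢
        constructor <;> simp only <;> linarith
      · have b1 := hD _ a2
        rw [← a5] at b1
        rw [← hR _ _ a1 a2 a5] at c2
        rw [abs_le] at b1 c2 ⊢
        constructor <;> simp only <;> linarith
      · have b1 := hD _ a3
        have a4' : x v.1.1 = x v.2 := a4
        rw [← a4'] at b1
        rw [← hR _ _ a1 a3 a4'] at c3
        rw [abs_le] at b1 c3 ⊢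
        constructor <;> simp only <;> linarith
    have k3 := ms_or hr (fun v : (Ω × Ω) × Ω => ((¬ |D v.1.1 - g (R v.1.1, e v.1.1)| ≤ M ∨
          ¬ |D v.1.2 - g (R v.1.2, e v.1.2)| ≤ M) ∨ ¬ |D v.2 - g (R v.2, e v.2)| ≤ M) ∨
          ¬ |κp (x v.1.1) - κr (R v.1.1, e v.1.1)| ≤ M')
          (fun v => ¬ δ ≤ |dt (E1 (e v.1.1)) (E2 (e v.1.1))
            (E1 (e v.1.2)) (E2 (e v.1.2)) (E1 (e v.2)) (E2 (e v.2))|)
    have k4 := ms_or hr (fun v : (Ω × Ω) × Ω => (¬ |D v.1.1 - g (R v.1.1, e v.1.1)| ≤ M ∨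
          ¬ |D v.1.2 - g (R v.1.2, e v.1.2)| ≤ M) ∨ ¬ |D v.2 - g (R v.2, e v.2)| ≤ M)
          (fun v => ¬ |κp (x v.1.1) - κr (R v.1.1, e v.1.1)| ≤ M')
    have k5 := ms_or hr (fun v : (Ω × Ω) × Ω => ¬ |D v.1.1 - g (R v.1.1, e v.1.1)| ≤ M ∨
          ¬ |D v.1.2 - g (R v.1.2, e v.1.2)| ≤ M) (fun v => ¬ |D v.2 - g (R v.2, e v.2)| ≤ M)
    have k6 := ms_or hr (fun v : (Ω × Ω) × Ω => ¬ |D v.1.1 - g (R v.1.1, e v.1.1)| ≤ M)
      (fun v => ¬ |D v.1.2 - g (R v.1.2, e v.1.2)| ≤ M)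
    have m1 : ms (tri p x) (fun v => ¬ |D v.1.1 - g (R v.1.1, e v.1.1)| ≤ M) =
        ms p (fun ω => ¬ |D ω - g (R ω, e ω)| ≤ M) :=
      (ms_tri_fst hp x (fun w => ¬ |D w.1 - g (R w.1, e w.1)| ≤ M)).trans
        (ms_dbl_fst hp x (fun ω => ¬ |D ω - g (R ω, e ω)| ≤ M))
    have m2 : ms (tri p x) (fun v => ¬ |D v.1.2 - g (R v.1.2, e v.1.2)| ≤ M) =
        ms p (fun ω => ¬ |D ω - g (R ω, e ω)| ≤ M) :=
      (ms_tri_fst hp x (fun w => ¬ |D w.2 - g (R w.2, e w.2)| ≤ M)).trans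
        (ms_dbl_snd hp x (fun ω => ¬ |D ω - g (R ω, e ω)| ≤ M))
    have m3 := ms_tri_snd hp x (fun ω => ¬ |D ω - g (R ω, e ω)| ≤ M)
    have m4 : ms (tri p x) (fun v => ¬ |κp (x v.1.1) - κr (R v.1.1, e v.1.1)| ≤ M') =
        ms p (fun ω => ¬ |κp (x ω) - κr (R ω, e ω)| ≤ M') :=
      (ms_tri_fst hp x (fun w => ¬ |κp (x w.1) - κr (R w.1, e w.1)| ≤ M')).trans
        (ms_dbl_fst hp x (fun ω => ¬ |κp (x ω) - κr (R ω, e ω)| ≤ M'))
    linarith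
  obtain ⟨f, hf⟩ := dp_tri hp h1 e x R hR A (by linarith : 0 < 1 - (3 * c + c₁ + c')) hA free
  set t0 : U → Option T := fun r => if h : ∃ t, A r (f r) t then some h.choose else none with ht0
  refine ⟨fun r => (t0 r).elim 0 G0, fun r => (t0 r).elim 0 G1, fun r => (t0 r).elim 0 G2,
    fun r => κr (r, (f r).1.1), hf.trans ?_⟩
  refine ms_mono hp fun ω _ hω => ?_
  have hex : ∃ t, A (R ω) (f (R ω)) t := ⟨_, hω⟩
  have e1 : t0 (R ω) = some hex.choose := by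
    rw [ht0]
    simp only
    rw [dif_pos hex]
  beta_reduce
  rw [e1]
  simp only [Option.elim_some]
  obtain ⟨⟨⟨⟨b1, b2⟩, ⟨b3, b4⟩, ⟨b5, b6⟩⟩, b7⟩, ⟨b8, b9, b10⟩, b11⟩ := hω
  obtain ⟨-, ⟨d8, d9, d10⟩, -⟩ := hex.choose_spec
  set t := hex.choose
  have key := solve3 (u := G0 (x ω) - G0 t) (v := G1 (x ω) - G1 t) (w := G2 (x ω) - G2 t)
    (ρ := 2 * (M + K)) hL b1 b2 b3 b4 b5 b6 hδ b7
    (by rw [abs_le] at b8 d8 ⊢; constructor <;> linarith)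
    (by rw [abs_le] at b9 d9 ⊢; constructor <;> linarith)
    (by rw [abs_le] at b10 d10 ⊢; constructor <;> linarith)
  have e2 : 6 * L ^ 2 * (2 * (M + K)) / δ = 12 * L ^ 2 * (M + K) / δ := by ring
  rw [e2] at key
  exact ⟨key, b11⟩

end Pool.GAP
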